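import Pool.Agent.LibKS37.M1

/-!
# k-hyperplanes of point sets in four dimensions

An `n`-point set in general position in `ℝ^4` has, for every `k`, at most `C n^(23/6)`
`k`-hyperplanes.
-/

namespace Pool.Agent.Results.MP_971713_co.FourDimensions

/-- `S` is in general position: every affine hyperplane `{p | ∑ a_i p_i = b}`, `a ≠ 0`, contains
at most four points of `S`. -/
def GeneralPosition (S : Finset (Fin 4 → ℝ)) : Prop :=
  ∀ (a : Fin 4 → ℝ) (b : ℝ), a ≠ 0 → {p : Fin 4 → ℝ | p ∈ S ∧ ∑ i, a i * p i = b}.ncard ≤ 4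

/-- `T` is a `k`-hyperplane of `S`: it consists of four points of `S` and lies on a hyperplane
`{p | ∑ a_i p_i = b}`, `a ≠ 0`, one of whose open sides contains exactly `k` points of `S`
(the other side is obtained by replacing `(a, b)` by `(-a, -b)`). -/
def IsKHyperplane (S : Finset (Fin 4 → ℝ)) (k : ℕ) (T : Finset (Fin 4 → ℝ)) : Prop :=
  T ⊆ S ∧ T.card = 4 ∧ ∃ (a : Fin 4 → ℝ) (b : ℝ), a ≠ 0 ∧ (∀ p ∈ T, ∑ i, a i * p i = b) ∧
    {p : Fin 4 → ℝ | p ∈ S ∧ b < ∑ i, a i * p i}.ncard = k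

theorem result : ∃ C : ℝ, 0 < C ∧ ∀ S : Finset (Fin 4 → ℝ), GeneralPosition S → ∀ k : ℕ,
    ({T : Finset (Fin 4 → ℝ) | IsKHyperplane S k T}.ncard : ℝ) ≤
      C * (S.card : ℝ) ^ ((23 : ℝ) / 6) := by
  obtain ⟨C, hC, h⟩ := KS37.main4
  exact ⟨C, hC, fun S hS k => h S hS k⟩

end Pool.Agent.Results.MP_971713_co.FourDimensions
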