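import Pool.Agent.LibKS39.Z2

/-!
# k-hyperplanes of point sets in all dimensions

For every `d ≥ 2` an `n`-point set in general position in `ℝ^d` has, for every `k`, at most
`C_d n^(d - 1/d²) log n` `k`-hyperplanes.
-/

namespace Pool.Agent.Results.MP_971713_co.PolynomialSaving

/-- `S` is in general position: every affine hyperplane `{p | ∑ a_i p_i = b}`, `a ≠ 0`, contains
at most `d` points of `S`. -/
def GeneralPosition (d : ℕ) (S : Finset (Fin d → ℝ)) : Prop :=
  ∀ (a : Fin d → ℝ) (b : ℝ), a ≠ 0 → {p : Fin d → ℝ | p ∈ S ∧ ∑ i, a i * p i = b}.ncard ≤ d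

/-- `T` is a `k`-hyperplane of `S`: it consists of `d` points of `S` and lies on a hyperplane
`{p | ∑ a_i p_i = b}`, `a ≠ 0`, one of whose open sides contains exactly `k` points of `S`
(the other side is obtained by replacing `(a, b)` by `(-a, -b)`). -/
def IsKHyperplane {d : ℕ} (S : Finset (Fin d → ℝ)) (k : ℕ) (T : Finset (Fin d → ℝ)) : Prop :=
  T ⊆ S ∧ T.card = d ∧ ∃ (a : Fin d → ℝ) (b : ℝ), a ≠ 0 ∧ (∀ p ∈ T, ∑ i, a i * p i = b) ∧
    {p : Fin d → ℝ | p ∈ S ∧ b < ∑ i, a i * p i}.ncard = k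

theorem result : ∀ d : ℕ, 2 ≤ d → ∃ C : ℝ, 0 < C ∧
    ∀ S : Finset (Fin d → ℝ), GeneralPosition d S → 2 ≤ S.card → ∀ k : ℕ,
      ({T : Finset (Fin d → ℝ) | IsKHyperplane S k T}.ncard : ℝ) ≤
        C * (S.card : ℝ) ^ ((d : ℝ) - 1 / (d : ℝ) ^ 2) * Real.log S.card := by
  classical
  intro d hd
  obtain ⟨C, hC, h⟩ := KS39.main d hd
  refine ⟨C, hC, fun S hS hcard k => ?_⟩
  have hfil : ∀ P : (Fin d → ℝ) → Prop, ∀ inst : DecidablePred P,
      {p : Fin d → ℝ | p ∈ S ∧ P p}.ncard = (@Finset.filter _ P inst S).card := by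
    intro P inst
    rw [← Set.ncard_coe_finset, Finset.coe_filter]
  have hS' : KS39.GenPos d S := by
    intro a b ha
    have h1 := hS a b ha
    rw [hfil (fun p => ∑ i, a i * p i = b) (fun _ => Classical.propDecidable _)] at h1
    exact h1
  have h3 := h S hS' hcard k
  have h4 : {T : Finset (Fin d → ℝ) | IsKHyperplane S k T} ⊆
      ((S.powerset.filter (fun T => KS39.IsKHyp S k T) : Finset (Finset (Fin d → ℝ))) :
        Set (Finset (Fin d → ℝ))) := by
    rintro T ⟨h5, h6, a, b, ha, hT, hk⟩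
    rw [Finset.mem_coe, Finset.mem_filter, Finset.mem_powerset]
    refine ⟨h5, h5, h6, a, b, ha, hT, ?_⟩
    rw [hfil (fun p => b < ∑ i, a i * p i) (fun _ => Classical.propDecidable _)] at hk
    exact hk
  have h5 := Set.ncard_le_ncard h4 (Finset.finite_toSet _)
  rw [Set.ncard_coe_finset] at h5
  refine le_trans (Nat.cast_le.2 h5) ?_
  convert h3

end Pool.Agent.Results.MP_971713_co.PolynomialSaving
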